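import Pool.Agent.Q248.BV.Series

/-!
# A Voronovskaja type estimate for complex bivariate Bernstein polynomials on the simplex
-/

set_option autoImplicit false

namespace Pool.Agent.Results.MP_814f17_an.Voronovskaja

open Finset

/-- `f` is analytic in the polydisk `‖w₁‖ < R₁`, `‖w₂‖ < R₂`: it is the sum of a double power series
which converges at every point of the polydisk. -/
def AnalyticOnPolydisk (R₁ R₂ : ℝ) (f : ℂ → ℂ → ℂ) : Prop :=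
  ∃ a : ℕ → ℕ → ℂ, ∀ w₁ w₂ : ℂ, ‖w₁‖ < R₁ → ‖w₂‖ < R₂ →
    HasSum (fun p : ℕ × ℕ => a p.1 p.2 * w₁ ^ p.1 * w₂ ^ p.2) (f w₁ w₂)

/-- The bivariate Bernstein polynomial of `f` on the simplex, at complex arguments. -/
noncomputable def bernstein (n : ℕ) (f : ℂ → ℂ → ℂ) (w₁ w₂ : ℂ) : ℂ :=
  ∑ k ∈ range (n + 1), ∑ j ∈ range (n - k + 1),
    ((n.factorial : ℂ) / (k.factorial * j.factorial * (n - k - j).factorial)) *
      w₁ ^ k * w₂ ^ j * (1 - w₁ - w₂) ^ (n - k - j) * f ((k : ℂ) / n) ((j : ℂ) / n)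

/-- the complex partial derivative in the first variable -/
noncomputable def D₁ (f : ℂ → ℂ → ℂ) (w₁ w₂ : ℂ) : ℂ := deriv (fun z => f z w₂) w₁

/-- the complex partial derivative in the second variable -/
noncomputable def D₂ (f : ℂ → ℂ → ℂ) (w₁ w₂ : ℂ) : ℂ := deriv (fun z => f w₁ z) w₂

/-- the remainder `E_n(f)` -/
noncomputable def remainder (n : ℕ) (f : ℂ → ℂ → ℂ) (w₁ w₂ : ℂ) : ℂ :=
  bernstein n f w₁ w₂ - f w₁ w₂ - 1 / (2 * n) *
    (w₁ * (1 - w₁) * D₁ (D₁ f) w₁ w₂ - 2 * w₁ * w₂ * D₂ (D₁ f) w₁ w₂ +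
      w₂ * (1 - w₂) * D₂ (D₂ f) w₁ w₂)

open Pool.Agent.Q248.BV

theorem coef (n k j : ℕ) (hk : k < n + 1) (hj : j < n - k + 1) :
    ((n.factorial : ℂ) / (k.factorial * j.factorial * (n - k - j).factorial)) =
      (n.choose k : ℂ) * ((n - k).choose j : ℂ) := by
  rw [Nat.cast_choose ℂ (by omega : k ≤ n), Nat.cast_choose ℂ (by omega : j ≤ n - k)]
  have h1 : ((n - k).factorial : ℂ) ≠ 0 := by exact_mod_cast Nat.factorial_ne_zero _
  have h2 : (k.factorial : ℂ) ≠ 0 := by exact_mod_cast Nat.factorial_ne_zero _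
  have h3 : (j.factorial : ℂ) ≠ 0 := by exact_mod_cast Nat.factorial_ne_zero _
  have h4 : ((n - k - j).factorial : ℂ) ≠ 0 := by exact_mod_cast Nat.factorial_ne_zero _
  field_simp

theorem hasSum_bernstein {R₁ R₂ : ℝ} {f : ℂ → ℂ → ℂ} {a : ℕ → ℕ → ℂ} (h : Ser R₁ R₂ f a)
    (h1 : 1 < R₁) (h2 : 1 < R₂) (n : ℕ) (hn : 1 ≤ n) (x y : ℂ) :
    HasSum (fun p : ℕ × ℕ => a p.1 p.2 * Bm n p.1 p.2 x y) (bernstein n f x y) := by
  have hn0 : (0 : ℝ) < n := by exact_mod_cast (by omega : 0 < n)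
  have key : ∀ k ∈ range (n + 1), ∀ j ∈ range (n - k + 1), HasSum (fun p : ℕ × ℕ =>
      a p.1 p.2 * ((n.choose k : ℂ) * ((n - k).choose j : ℂ) *
    (x ^ k * y ^ j * (1 - x - y) ^ (n - k - j)) * (((k : ℂ) / n) ^ p.1 * ((j : ℂ) / n) ^ p.2)))
      (((n.factorial : ℂ) / (k.factorial * j.factorial * (n - k - j).factorial)) *
      x ^ k * y ^ j * (1 - x - y) ^ (n - k - j) * f ((k : ℂ) / n) ((j : ℂ) / n)) := by
    intro k hk j hj
    rw [Finset.mem_range] at hk hj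
    rw [coef n k j hk hj]
    have hb : ∀ m : ℕ, m ≤ n → ‖(m : ℂ) / n‖ ≤ 1 := by
      intro m hm
      rw [norm_div, Complex.norm_natCast, Complex.norm_natCast, div_le_one hn0]
      exact_mod_cast hm
    have h3 := h ((k : ℂ) / n) ((j : ℂ) / n) ((hb k (by omega)).trans_lt h1)
      ((hb j (by omega)).trans_lt h2)
    have h4 := h3.mul_left ((n.choose k : ℂ) * ((n - k).choose j : ℂ) *
      x ^ k * y ^ j * (1 - x - y) ^ (n - k - j))
    refine h4.congr_fun ?_ |> fun h => h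
    intro p
    ring
  have h5 := hasSum_sum (fun k hk => hasSum_sum (fun j hj => key k hk j hj))
  refine h5.congr_fun ?_ |> fun h => h
  intro p
  unfold Bm
  simp only [Finset.mul_sum]

theorem hasSum_remainder {R₁ R₂ : ℝ} {f : ℂ → ℂ → ℂ} {a : ℕ → ℕ → ℂ} (h : Ser R₁ R₂ f a)
    (h1 : 1 < R₁) (h2 : 1 < R₂) (n : ℕ) (hn : 1 ≤ n) (x y : ℂ) (hx : ‖x‖ < R₁) (hy : ‖y‖ < R₂) :
    HasSum (fun p : ℕ × ℕ => a p.1 p.2 * (Bm n p.1 p.2 x y - Vm n p.1 p.2 x y))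
      (remainder n f x y) := by
  have hB := hasSum_bernstein h h1 h2 n hn x y
  have hf := h x y hx hy
  have h11 : HasSum (fun p : ℕ × ℕ => a p.1 p.2 * ((p.1 : ℂ) * (p.1 - 1) * (x ^ (p.1 - 2) *
      y ^ p.2))) (D₁ (D₁ f) x y) := by
    have h3 := h.deriv₁.der x y hx hy
    rw [← shift_hasSum]
    · refine h3.congr_fun ?_ |> fun h => h
      intro p
      have e : p.1 + 1 - 2 = p.1 - 1 := by omega
      simp only [e]
      push_cast
      ring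
    · intro j
      simp
  have h12 : HasSum (fun p : ℕ × ℕ => a p.1 p.2 * ((p.1 : ℂ) * p.2 * (x ^ (p.1 - 1) *
      y ^ (p.2 - 1)))) (D₂ (D₁ f) x y) := by
    have h3 := h.deriv₁.swap.der y x hy hx
    have h4 := (Equiv.prodComm ℕ ℕ).hasSum_iff.2 h3
    rw [← shift_hasSum]
    · refine h4.congr_fun ?_ |> fun h => h
      intro p
      simp only [Function.comp, Equiv.prodComm_apply, Prod.swap, Nat.add_sub_cancel]
      push_cast
      ring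
    · intro j
      simp
  have h22 : HasSum (fun p : ℕ × ℕ => a p.1 p.2 * ((p.2 : ℂ) * (p.2 - 1) * (x ^ p.1 *
      y ^ (p.2 - 2)))) (D₂ (D₂ f) x y) := by
    have h3 := h.swap.deriv₁.der y x hy hx
    have h5 : HasSum (fun q : ℕ × ℕ => a q.2 q.1 * ((q.1 : ℂ) * (q.1 - 1) * (x ^ q.2 *
        y ^ (q.1 - 2)))) (D₂ (D₂ f) x y) := by
      rw [← shift_hasSum]
      · refine h3.congr_fun ?_ |> fun h => h
        intro p
        have e : p.1 + 1 - 2 = p.1 - 1 := by omega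
        simp only [e]
        push_cast
        ring
      · intro j
        simp
    have h4 := (Equiv.prodComm ℕ ℕ).hasSum_iff.2 h5
    refine h4.congr_fun ?_ |> fun h => h
    intro p
    simp only [Function.comp, Equiv.prodComm_apply, Prod.swap]
  have hall := (hB.sub hf).sub ((((h11.mul_left (x * (1 - x))).sub
    (h12.mul_left (2 * x * y))).add (h22.mul_left (y * (1 - y)))).mul_left (1 / (2 * (n : ℂ))))
  refine hall.congr_fun ?_ |> fun h => h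
  intro p
  unfold Vm
  ring

/-- **Voronovskaja type estimate.**  For all `R₁, R₂ > 1`, every analytic `f` in the polydisk and all
radii `1 ≤ ρ₁ < R₁`, `1 ≤ ρ₂ < R₂` there is a constant `C` with `‖E_n(f)‖ ≤ C / n^2` on the closed
polydisk with radii `ρ₁`, `ρ₂`, for all `n ≥ 1`. -/
theorem result : ∀ R₁ R₂ : ℝ, 1 < R₁ → 1 < R₂ → ∀ f : ℂ → ℂ → ℂ, AnalyticOnPolydisk R₁ R₂ f →
    ∀ ρ₁ ρ₂ : ℝ, 1 ≤ ρ₁ → ρ₁ < R₁ → 1 ≤ ρ₂ → ρ₂ < R₂ →
    ∃ C : ℝ, ∀ n : ℕ, 1 ≤ n → ∀ w₁ w₂ : ℂ, ‖w₁‖ ≤ ρ₁ → ‖w₂‖ ≤ ρ₂ →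
      ‖remainder n f w₁ w₂‖ ≤ C / (n : ℝ) ^ 2 := by
  intro R₁ R₂ h1 h2 f ⟨a, ha⟩ ρ₁ ρ₂ hρ₁ hρR₁ hρ₂ hρR₂
  have h : Ser R₁ R₂ f a := ha
  obtain ⟨r, hr1, hr2⟩ := exists_between hρR₁
  obtain ⟨s, hs1, hs2⟩ := exists_between hρR₂
  have hρ1 : 0 < ρ₁ := by linarith
  have hρ2 : 0 < ρ₂ := by linarith
  have hr0 : 0 < r := by linarith
  have hs0 : 0 < s := by linarith
  have hsum := (h (r : ℂ) (s : ℂ)
    (by rw [Complex.norm_real, Real.norm_eq_abs, abs_of_pos hr0]; exact hr2)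
    (by rw [Complex.norm_real, Real.norm_eq_abs, abs_of_pos hs0]; exact hs2)).summable.norm
  -- the geometric factor
  set θ := max (ρ₁ / r) (ρ₂ / s) with hθ
  have hθ0 : 0 < θ := lt_max_of_lt_left (by positivity)
  have hθ1 : θ < 1 := max_lt ((div_lt_one hr0).2 hr1) ((div_lt_one hs0).2 hs1)
  obtain ⟨B, hB⟩ : ∃ B : ℝ, ∀ K : ℕ, (K : ℝ) ^ 4 * θ ^ K ≤ B := by
    have h3 := summable_pow_mul_geometric_of_norm_lt_one 4 (r := θ)
      (by rw [Real.norm_eq_abs, abs_of_pos hθ0]; exact hθ1)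
    obtain ⟨B, hB⟩ := h3.tendsto_atTop_zero.bddAbove_range
    exact ⟨B, fun K => hB ⟨K, rfl⟩⟩
  set u : ℕ × ℕ → ℝ := fun p => ‖a p.1 p.2 * (r : ℂ) ^ p.1 * (s : ℂ) ^ p.2‖ * B with hu
  have hus : Summable u := hsum.mul_right _
  have hbd : ∀ k j : ℕ, ‖a k j‖ * (((k + j : ℕ) : ℝ) ^ 4 * (ρ₁ ^ k * ρ₂ ^ j)) ≤ u (k, j) := by
    intro k j
    simp only [hu]
    rw [norm_mul, norm_mul, norm_pow, norm_pow, Complex.norm_real, Complex.norm_real,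
      Real.norm_eq_abs, Real.norm_eq_abs, abs_of_pos hr0, abs_of_pos hs0]
    have e1 : ρ₁ ^ k ≤ θ ^ k * r ^ k := by
      rw [← mul_pow]
      apply pow_le_pow_left₀ hρ1.le
      rw [← div_le_iff₀ hr0]
      exact le_max_left _ _
    have e2 : ρ₂ ^ j ≤ θ ^ j * s ^ j := by
      rw [← mul_pow]
      apply pow_le_pow_left₀ hρ2.le
      rw [← div_le_iff₀ hs0]
      exact le_max_right _ _
    calc ‖a k j‖ * (((k + j : ℕ) : ℝ) ^ 4 * (ρ₁ ^ k * ρ₂ ^ j))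
        ≤ ‖a k j‖ * (((k + j : ℕ) : ℝ) ^ 4 * ((θ ^ k * r ^ k) * (θ ^ j * s ^ j))) := by gcongr
      _ = ‖a k j‖ * (r ^ k * s ^ j) * (((k + j : ℕ) : ℝ) ^ 4 * θ ^ (k + j)) := by
          rw [pow_add]; ring
      _ ≤ ‖a k j‖ * (r ^ k * s ^ j) * B := by
          apply mul_le_mul_of_nonneg_left (hB _) (by positivity)
      _ = _ := by ring
  refine ⟨3 * ∑' p, u p, ?_⟩
  intro n hn x y hx hy
  have hR := hasSum_remainder h h1 h2 n hn x y (hx.trans_lt hρR₁) (hy.trans_lt hρR₂)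
  have hg := (hus.hasSum.mul_left 3).div_const ((n : ℝ) ^ 2)
  refine hR.norm_le_of_bounded hg ?_
  rintro ⟨k, j⟩
  have hm := main n k j hn x y ρ₁ ρ₂ hρ₁ hρ₂ hx hy
  rw [norm_mul]
  calc ‖a k j‖ * ‖Bm n k j x y - Vm n k j x y‖
      ≤ ‖a k j‖ * (3 * (((k + j : ℕ) : ℝ) ^ 4 * (ρ₁ ^ k * ρ₂ ^ j)) / (n : ℝ) ^ 2) := by gcongr
    _ = 3 * (‖a k j‖ * (((k + j : ℕ) : ℝ) ^ 4 * (ρ₁ ^ k * ρ₂ ^ j))) / (n : ℝ) ^ 2 := by ring
    _ ≤ 3 * u (k, j) / (n : ℝ) ^ 2 := by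
        have := hbd k j
        gcongr

end Pool.Agent.Results.MP_814f17_an.Voronovskaja
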